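import Pool.Agent.Q5.AP.ErrQ
import Pool.Agent.Q5.AP.Dist
import Pool.Agent.Q5.AP.Two
import Pool.Agent.Results.MP_92892c_nt.Oscillation

/-!
# The limiting logarithmic distribution of the error in the formula of Birch and Swinnerton-Dyer

Let `E : y² = x³ + a x + b` be an elliptic curve over `ℚ`, `f` its newform, `Λ` its completed `L`-function, `F` the
entire continuation of its incomplete `L`-series (the Euler factors at the primes dividing `2Δ` are removed), `N_p`
the number of affine points modulo `p`,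

`P(x) = ∏_{p ≤ x} (N_p + 1)/p`,  `P*(x) = P(x) exp (∑_{√x < p ≤ x} (a_p² - 2p)/(2p²))`

the original product of Birch and Swinnerton-Dyer with the SHARP cut-off, and the same product with the second order
terms. For real `ρ` and `A > 0` put `δ*(x) = log (A P*(x) / (e^γ log x)^ρ)`; let `m_t` be the order of `Λ` at `1 + it`.
`Formula F ρ A` says that `ρ = r = ord_{s=1} F` and `F^(r)(1)/r! = A`. It is shown, for every such curve, every real `ρ`
and every `A > 0`, and without any further hypothesis, that the following are equivalent: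

1. all zeros of `Λ` are on the line `Re s = 1`, and `Formula F ρ A` holds;
2. the mean square `(log X)⁻¹ ∫_e^X (log x · δ*(x))² dx/x` is bounded for large `X`;
3. the function `log x · δ*(x)` has a LIMITING LOGARITHMIC DISTRIBUTION with a second moment, to which the mean squares
   converge: there is a probability measure `ν` on `ℝ` with `∫ y² dν(y) < ∞` such that
   `(log X)⁻¹ ∫_e^X φ(log x · δ*(x)) dx/x → ∫ φ dν` for all bounded continuous `φ`, and for `φ(y) = y²`.

In this case `ν` has moreover the mean `0` and the variance `∑_{t ≠ 0} m_t²/t² > 0`; it is unique; and for every `c`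
with `ν{c} = 0`, that is for all `c` outside of a countable set, the set of the `x` with
`P*(x) > (e^γ log x)^ρ A⁻¹ e^(c/log x)` HAS a logarithmic density, `ν(c, ∞)`.

The same is proved for the original product, with `δ(x) = log (A P(x) / (√2 (e^γ log x)^ρ))`, under the hypothesis
`log x · (∑_{√x < p ≤ x} (a_p² - 2p)/(2p²) + (log 2)/2) → 0`, the theorem of Rankin and Selberg with a zero-free region.

So the strong conjecture of Birch and Swinnerton-Dyer for `E` (rank and leading-term formula, with `ρ` the rank and `A`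
the predicted value times the Euler factors removed), together with the Riemann hypothesis for `E`, is a statement on
the distribution of the values of the product: the normalised error `log x · δ*(x)` has a law of finite variance.
That error terms which are almost periodic in the sense of Besicovitch have a limiting distribution is classical
(for the error terms of prime number theory: Wintner; Rubinstein and Sarnak; Akbary, Ng and Shahabi). New are the law
for the product of Birch and Swinnerton-Dyer and the equivalence; nothing is assumed on the zeros. The proof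
(`Pool.Agent.Q5.AP.Levy`, `ExpMean`, `Dist`) uses Lévy's continuity theorem.
-/

set_option autoImplicit false

namespace Pool.Agent.Results.MP_4a9ea6_nt.LimitDistribution

open Pool.Agent.W263.BSD Filter Topology Classical MeasureTheory Set Complex
open CongruenceSubgroup
open scoped MatrixGroups
open Pool.Agent.Results.MP_92892c_nt.ExactMeanSquareRational (devStar dev squares mult meanSquare
  BoundedMeanSquare)
open Pool.Agent.Results.MP_92892c_nt.Oscillation (share)
open Pool.Agent.Results.MP_4a9ea6_nt.SimpleZeros (IsFormOf IsCompleted RH Formula)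

/-- `ν` is the limiting logarithmic distribution of `log x · δ(x)`. -/
def IsLimitLaw (δ : ℝ → ℝ) (ν : Measure ℝ) : Prop :=
  IsProbabilityMeasure ν ∧ ∀ φ : ℝ → ℝ, Continuous φ → (∃ B : ℝ, ∀ y, |φ y| ≤ B) →
    Tendsto (fun X : ℝ => (∫ x in Real.exp 1..X, φ (Real.log x * δ x) / x) / Real.log X) atTop
      (𝓝 (∫ y, φ y ∂ν))

/-- There is a limiting logarithmic distribution with a second moment, the limit of the mean squares. -/
def HasLimitLaw (δ : ℝ → ℝ) : Prop :=
  ∃ ν : Measure ℝ, IsLimitLaw δ ν ∧ Integrable (fun y : ℝ => y ^ 2) ν ∧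
    Tendsto (meanSquare δ) atTop (𝓝 (∫ y, y ^ 2 ∂ν))

/-- There is exactly one limiting logarithmic distribution `ν`; its mean is `0`, its variance is
`∑ m_t²/t² > 0`, it is the limit of the mean squares, and `{x : log x · δ(x) > c}` has the logarithmic density
`ν(c, ∞)` if `ν{c} = 0`. -/
def LimitLaw (Λ : ℂ → ℂ) (δ : ℝ → ℝ) : Prop :=
  ∃ ν : Measure ℝ, (IsLimitLaw δ ν ∧ ∀ ν' : Measure ℝ, IsLimitLaw δ ν' → ν' = ν) ∧
    Integrable (fun y : ℝ => y ^ 2) ν ∧ ∫ y, y ∂ν = 0 ∧ 0 < ∫ y, y ^ 2 ∂ν ∧
    HasSum (fun t : ℝ => ((mult Λ t : ℝ) / t) ^ 2) (∫ y, y ^ 2 ∂ν) ∧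
    Tendsto (meanSquare δ) atTop (𝓝 (∫ y, y ^ 2 ∂ν)) ∧
    ∀ c : ℝ, ν {c} = 0 → Tendsto (share (fun x => Real.log x * δ x) c) atTop (𝓝 (ν.real (Ioi c)))

/-- The criterion for the error `δ`. -/
def Criterion (F Λ : ℂ → ℂ) (ρ A : ℝ) (δ : ℝ → ℝ) : Prop :=
  List.TFAE [RH Λ ∧ Formula F ρ A, BoundedMeanSquare δ, HasLimitLaw δ, LimitLaw Λ δ]

open Pool.Agent.Q5.AP (errQ IsErr dist_of cm_zero prod_mean cut Par cm)

theorem law_unique {δ : ℝ → ℝ} {ν ν' : Measure ℝ} (h : IsLimitLaw δ ν) (h' : IsLimitLaw δ ν') :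
    ν' = ν := by
  obtain ⟨h1, h2⟩ := h
  obtain ⟨h1', h2'⟩ := h'
  refine ext_of_forall_integral_eq_of_IsFiniteMeasure fun φ => ?_
  have hB : ∃ B : ℝ, ∀ y, |φ y| ≤ B := ⟨‖φ‖, fun y => φ.norm_coe_le_norm y⟩
  exact tendsto_nhds_unique (h2' φ φ.continuous hB) (h2 φ φ.continuous hB)

/-- **The limiting distribution of the error.** -/
theorem result (a b : ℤ) (hΔ : 4 * a ^ 3 + 27 * b ^ 2 ≠ 0) (F : ℂ → ℂ) (hF : IsLSeries a b F)
    (N : ℕ) [NeZero N] (f : CuspForm (Gamma0 N : Subgroup (GL (Fin 2) ℝ)) 2) (w : ℝ)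
    (hf : IsFormOf a b N f w) :
    ∃ Λ : ℂ → ℂ, IsCompleted f Λ ∧ (∀ Λ', IsCompleted f Λ' → Λ' = Λ) ∧
      (∀ s : ℂ, Λ (2 - s) = (w : ℂ) * Λ s) ∧ ∀ ρ A : ℝ, 0 < A →
        Criterion F Λ ρ A (devStar a b ρ A) ∧
        (Tendsto (fun x : ℝ => Real.log x * (squares a b x + Real.log 2 / 2)) atTop (𝓝 0) →
          Criterion F Λ ρ A (dev a b ρ A)) := by
  obtain ⟨Λ, hΛ, huniq, hfe, hlink, hzero, herr⟩ := errQ hΔ hF hf
  have hfin : ∀ t : ℝ, analyticOrderAt Λ (1 + t * I) ≠ ⊤ := by
    intro t h
    obtain ⟨r, hr⟩ := Pool.Agent.W189.ML.order_finite_all hF (1 + t * I)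
    rw [hlink _ (by simp), h] at hr
    exact ENat.top_ne_natCast _ hr
  have key : ∀ (ρ A : ℝ) (δ : ℝ → ℝ), 0 < A → IsErr a b ρ A δ → Criterion F Λ ρ A δ := by
    intro ρ A δ hA hδ
    obtain ⟨hW, hiff, hpar⟩ := herr ρ A δ hA hδ
    have h14 : RH Λ ∧ Formula F ρ A → LimitLaw Λ δ := by
      intro h
      obtain ⟨V, hV, P⟩ := hpar h
      obtain ⟨ν, hL, hs, h1, h2, h3⟩ := dist_of hW P
      have hlaw : IsLimitLaw δ ν := ⟨hL.prob, hL.test⟩
      obtain ⟨U, hU, tU⟩ := prod_mean hW hW P P
      have eU : U = V := by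
        refine hU.unique ?_
        convert! hV using 1
        funext t
        ring
      rw [eU] at tU
      have tU' : Tendsto (meanSquare δ) atTop (𝓝 V) := by
        refine tU.congr fun X => ?_
        unfold meanSquare
        congr 2
        funext x
        ring
      have hpos : 0 < V := by
        obtain ⟨t, ht, h0⟩ := hzero h.1
        have h5 : analyticOrderAt Λ (1 + t * I) ≠ 0 := by
          rw [(hΛ.1.analyticAt _).analyticOrderAt_ne_zero]
          exact h0
        have h6 : mult Λ t ≠ 0 := by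
          unfold mult
          rw [Ne, ENat.toNat_eq_zero, not_or]
          exact ⟨h5, hfin t⟩
        have h3 : ((mult Λ t : ℝ) / t) ^ 2 ≤ V := le_hasSum hV t fun s _ => sq_nonneg _
        have h4 : ((mult Λ t : ℝ) / t) ≠ 0 := div_ne_zero (by exact_mod_cast h6) ht
        have h7 : 0 < ((mult Λ t : ℝ) / t) ^ 2 := by positivity
        linarith
      refine ⟨ν, ⟨hlaw, fun ν' h' => law_unique hlaw h'⟩, h1, ?_, ?_, ?_, ?_, hs⟩
      · rw [h3, cm_zero, Complex.zero_re]
      · rw [h2]
        exact hpos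
      · rw [h2]
        exact hV
      · rw [h2]
        exact tU'
    unfold Criterion
    tfae_have 1 ↔ 2 := hiff
    tfae_have 1 → 4 := h14
    tfae_have 4 → 3 := by
      rintro ⟨ν, ⟨h1, -⟩, h2, -, -, -, h3, -⟩
      exact ⟨ν, h1, h2, h3⟩
    tfae_have 3 → 2 := by
      rintro ⟨ν, -, -, h3⟩
      refine ⟨(∫ y, y ^ 2 ∂ν) + 1, ?_⟩
      filter_upwards [h3.eventually (gt_mem_nhds (show ∫ y, y ^ 2 ∂ν < (∫ y, y ^ 2 ∂ν) + 1 by linarith)),
        eventually_gt_atTop 1] with X hX hX1
      unfold meanSquare at hX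
      rw [div_lt_iff₀ (Real.log_pos hX1)] at hX
      exact hX.le
    tfae_finish
  exact ⟨Λ, hΛ, huniq, hfe, fun ρ A hA => ⟨key ρ A _ hA (Or.inl rfl),
    fun hc => key ρ A _ hA (Or.inr ⟨hc, rfl⟩)⟩⟩

end Pool.Agent.Results.MP_4a9ea6_nt.LimitDistribution
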