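import Mathlib
import Pool.Agent.Q17.QF.Pos
import Pool.Agent.Q17.LS.Tw

/-!
# Simultaneous twists of rank zero with large Tate-Shafarevich groups

The elliptic curves `E` over `ℚ` with a rational cyclic subgroup of order 4, ordered by height. For
every `m` a positive proportion of them has the following property for one tuple `(d_1, ..., d_m)` of
a finite list: all the `2 ^ m` quadratic twists `E^D`, `D` the products of some of the `d_i`, have rank
zero, and the 2-primary parts of their Tate-Shafarevich groups are isomorphic to `(ℤ / 2) ^ k` with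
`k` near `(3 / 2) log log H`.

The Tate-Shafarevich group is that of `Pool.Agent.TH841.SH.ShaDef`: continuous cocycles of the
absolute Galois group of `ℚ` with values in the points over the algebraic closure, locally trivial at
all the places of `ℚ`, modulo the coboundaries. The condition `Cyclic4 A B` is defined in
`Pool.Agent.Q17.IG.Cyc`: there is a point `P` of order 4 of `y² = x³ + A x + B` over the algebraic
closure of `ℚ` such that `σ P = P` or `σ P = -P` for all automorphisms `σ`.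
-/

set_option autoImplicit false

namespace Pool.Agent.Results.MP_4a9ea6_nt.TwistsWithLargeSha

open Finset Filter Topology

open Pool.Agent.TH841.SH.D (Sha rk)

open Pool.Agent.Q17.IG (Cyclic4)

/-- the quadratic twist by `D` of the curve `y² = x³ + A x + B`, `c = (A, B)`: the curve
`y² = x³ + D² A x + D³ B` -/
def E (D : ℤ) (c : ℤ × ℤ) : WeierstrassCurve ℚ :=
  ⟨0, 0, 0, ((D ^ 2 * c.1 : ℤ) : ℚ), ((D ^ 3 * c.2 : ℤ) : ℚ)⟩

open Classical in
/-- The pairs `(A, B)` of integers such that `4 A³ + 27 B² ≠ 0`, there is no prime `p` with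
`p⁴ ∣ A` and `p⁶ ∣ B`, the height `max (4 |A|³) (27 B²)` is at most `H`, and `y² = x³ + A x + B` has a
rational cyclic subgroup of order 4. (The bounds `|A|, |B| ≤ H` follow from the bound of the height.
Every elliptic curve over `ℚ` is isomorphic to `y² = x³ + A x + B` for exactly one pair with the first
two properties.) -/
noncomputable def Fam (H : ℕ) : Finset (ℤ × ℤ) :=
  ((Icc (-(H : ℤ)) H) ×ˢ (Icc (-(H : ℤ)) H)).filter (fun c : ℤ × ℤ =>
    4 * c.1 ^ 3 + 27 * c.2 ^ 2 ≠ 0 ∧ 4 * |c.1| ^ 3 ≤ H ∧ 27 * c.2 ^ 2 ≤ H ∧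
    (∀ p : ℕ, p.Prime → ¬ ((p : ℤ) ^ 4 ∣ c.1 ∧ (p : ℤ) ^ 6 ∣ c.2)) ∧ Cyclic4 c.1 c.2)

/-- The tuples `(q_1 q'_1, ..., q_m q'_m)`, where the `q_i` and `q'_i` are `2 m` distinct primes, all
larger than `N`. -/
def Tuple {m : ℕ} (N : ℕ) (d : Fin m → ℕ) : Prop :=
  ∃ q q' : Fin m → ℕ, (∀ i, d i = q i * q' i) ∧ (∀ i, (q i).Prime ∧ N < q i) ∧
    (∀ i, (q' i).Prime ∧ N < q' i) ∧ Function.Injective q ∧ Function.Injective q' ∧
    ∀ i j, q i ≠ q' j

/-- All the `2 ^ m` twists by the products of some of the `d_i` have rank zero over `ℚ`, and the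
2-primary part of the Tate-Shafarevich group is isomorphic to `(ℤ / 2) ^ k` for some `k` with
`|k - (3 / 2) log log H| ≤ η log log H`. -/
def AllTwists {m : ℕ} (η : ℝ) (H : ℕ) (d : Fin m → ℕ) (c : ℤ × ℤ) : Prop :=
  ∀ T : Finset (Fin m), rk (E (∏ i ∈ T, (d i : ℤ)) c) = 0 ∧
    ∃ k : ℕ, |(k : ℝ) - 3 / 2 * Real.log (Real.log H)| ≤ η * Real.log (Real.log H) ∧
      Nonempty (AddCommGroup.primaryComponent (Sha (E (∏ i ∈ T, (d i : ℤ)) c)) 2 ≃+
        (Fin k → ZMod 2))

/-! ### Proofs -/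

lemma Fam_eq : Fam = Pool.Agent.Q17.IG.Fm := by
  classical
  funext H
  unfold Fam Pool.Agent.Q17.IG.Fm
  apply filter_congr
  intro c _
  constructor
  · rintro ⟨h1, h2, h3, h4, h5⟩
    exact ⟨h1, h2, h3, h4, (Pool.Agent.Q17.IG.cyclic4_iff h1).1 h5⟩
  · rintro ⟨h1, h2, h3, h4, h5⟩
    exact ⟨h1, h2, h3, h4, (Pool.Agent.Q17.IG.cyclic4_iff h1).2 h5⟩

lemma card_tendsto : Tendsto (fun H : ℕ => (Fam H).card) atTop atTop := by
  obtain ⟨C4, N1, hC4, h⟩ := Pool.Agent.Q17.IG.Fm_lower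
  rw [Filter.tendsto_atTop_atTop]
  intro b
  obtain ⟨n, hn⟩ := exists_nat_gt (C4 * b)
  refine ⟨(max N1 n + 1) ^ 6, fun H hH => ?_⟩
  have h1 := h (max N1 n + 1) H (by omega) (hH.trans (Nat.le_mul_of_pos_left H (by norm_num)))
  rw [Fam_eq]
  have h2 : (n : ℝ) ≤ ((max N1 n + 1 : ℕ) : ℝ) := by
    have : n ≤ max N1 n + 1 := by omega
    exact_mod_cast this
  have h3 : (1 : ℝ) ≤ ((max N1 n + 1 : ℕ) : ℝ) := by
    have : 1 ≤ max N1 n + 1 := by omega
    exact_mod_cast this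
  have h4 : C4 * b ≤ C4 * (Pool.Agent.Q17.IG.Fm H).card := by nlinarith
  exact_mod_cast le_of_mul_le_mul_left h4 hC4

lemma prim_equiv {G : Type} [AddCommGroup G]
    (h : ∀ (k : ℕ) (x : G), (2 ^ k : ℕ) • x = 0 → x + x = 0) {k : ℕ}
    (hc : Nat.card {x : G // x + x = 0} = 2 ^ k) :
    Nonempty (AddCommGroup.primaryComponent G 2 ≃+ (Fin k → ZMod 2)) := by
  have hm : ∀ x : G, x ∈ AddCommGroup.primaryComponent G 2 ↔ x + x = 0 := by
    intro x
    constructor
    · rintro ⟨j, hj⟩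
      exact h j x hj
    · intro hx
      refine ⟨1, ?_⟩
      rw [pow_one, two_nsmul]
      exact hx
  let e : AddCommGroup.primaryComponent G 2 ≃ {x : G // x + x = 0} :=
    Equiv.subtypeEquivRight hm
  have hcard : Nat.card (AddCommGroup.primaryComponent G 2) = 2 ^ k := by
    rw [← hc]
    exact Nat.card_congr e
  have hfin : Finite (AddCommGroup.primaryComponent G 2) := by
    apply Nat.finite_of_card_ne_zero
    rw [hcard]
    positivity
  have hmod : ∀ x : AddCommGroup.primaryComponent G 2, 2 • x = 0 := fun x => Subtype.ext (by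
    have h1 := (hm x.1).1 x.2
    rw [two_nsmul]
    exact h1)
  let _ : Module (ZMod 2) (AddCommGroup.primaryComponent G 2) := AddCommGroup.zmodModule hmod
  have : Module.Finite (ZMod 2) (AddCommGroup.primaryComponent G 2) := Module.Finite.of_finite
  have h1 : Nat.card (AddCommGroup.primaryComponent G 2) =
      2 ^ Module.finrank (ZMod 2) (AddCommGroup.primaryComponent G 2) := by
    rw [Module.natCard_eq_pow_finrank (K := ZMod 2), Nat.card_zmod]
  rw [hcard] at h1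
  have h2 : k = Module.finrank (ZMod 2) (AddCommGroup.primaryComponent G 2) :=
    Nat.pow_right_injective le_rfl h1
  subst h2
  exact ⟨(Module.finBasis (ZMod 2) (AddCommGroup.primaryComponent G 2)).equivFun.toAddEquiv⟩

lemma prod_ne {m N : ℕ} {d : Fin m → ℕ} (hd : Tuple N d) (T : Finset (Fin m)) :
    ∏ i ∈ T, (d i : ℤ) ≠ 0 := by
  obtain ⟨q, q', h1, h2, h3, -⟩ := hd
  refine prod_ne_zero_iff.2 fun i _ => ?_
  rw [h1 i]
  exact_mod_cast mul_ne_zero (h2 i).1.ne_zero (h3 i).1.ne_zero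

lemma all_of {m N : ℕ} {d : Fin m → ℕ} (hd : Tuple N d) {η : ℝ} {H : ℕ} {c : ℤ × ℤ}
    (h : Pool.Agent.Q17.IG.Q4 (Pool.Agent.Y667.QK.TwS (fun j => (d j : ℤ))) c)
    (hok : ∀ T : Finset (Fin m), Pool.Agent.Q17.LS.Ok η (H : ℝ)
      (Pool.Agent.W307.RT.Sh ((∏ i ∈ T, (d i : ℤ)) ^ 2 * c.1) ((∏ i ∈ T, (d i : ℤ)) ^ 3 * c.2))) :
    AllTwists η H d c := by
  obtain ⟨c', hS, hT, e, q, u, r, L⟩ := h
  intro T
  obtain ⟨h1, h2⟩ := Pool.Agent.Q17.QF.zeroD L hT (prod_ne hd T) (hS T).1 (hS T).2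
  obtain ⟨k, hk, hc⟩ := hok T
  exact ⟨h1, k, hk, prim_equiv h2 hc⟩

open Classical in
/-- **Theorem.** The number of the elliptic curves over `ℚ` of height at most `H` with a rational
cyclic subgroup of order 4 tends to infinity with `H`. For all `m` and `N` there are a finite list `L`
of tuples `(d_1, ..., d_m)` of products of two primes larger than `N`, the `2 m` primes distinct, and
`δ > 0` such that for every `η > 0` and all large `H` for some tuple in `L` at least a proportion `δ`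
of these curves `E` has the property that all the `2 ^ m` quadratic twists of `E` by the products of
some of the `d_i` have rank zero over `ℚ` and the 2-primary part of their Tate-Shafarevich group is
isomorphic to `(ℤ / 2) ^ k` for some `k` with `|k - (3 / 2) log log H| ≤ η log log H`. -/
theorem result : Tendsto (fun H : ℕ => (Fam H).card) atTop atTop ∧
    ∀ m N : ℕ, ∃ L : Finset (Fin m → ℕ), (∀ d ∈ L, Tuple N d) ∧ ∃ δ : ℝ, 0 < δ ∧
      ∀ η : ℝ, 0 < η → ∀ᶠ H : ℕ in atTop, ∃ d ∈ L,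
        δ * ((Fam H).card : ℝ) ≤ (((Fam H).filter (AllTwists η H d)).card : ℝ) := by
  refine ⟨card_tendsto, fun m N => ?_⟩
  obtain ⟨L, hL, hpos⟩ := Pool.Agent.Q17.QF.simul m N
  obtain ⟨δ, hδ, H0, h⟩ := Pool.Agent.Q17.QF.posHL hpos
  refine ⟨L, hL, δ / 2, by positivity, fun η hη => ?_⟩
  -- the exceptions
  obtain ⟨M, hM⟩ : ∃ M : ℝ, M = (2 : ℝ) ^ m := ⟨_, rfl⟩
  have hM0 : 0 < M := by
    rw [hM]
    positivity
  have hex : ∀ d ∈ L, ∀ T : Finset (Fin m), ∀ᶠ H : ℕ in atTop,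
      (((Fam H).filter (fun c => ¬ Pool.Agent.Q17.LS.Ok η (H : ℝ) (Pool.Agent.W307.RT.Sh
        ((∏ i ∈ T, (d i : ℤ)) ^ 2 * c.1) ((∏ i ∈ T, (d i : ℤ)) ^ 3 * c.2)))).card : ℝ) ≤
        δ / (2 * M) * ((Fam H).card : ℝ) := by
    intro d hd T
    obtain ⟨H1, h1⟩ := Pool.Agent.Q17.LS.TW.fam (∏ i ∈ T, (d i : ℤ)) (prod_ne (hL d hd) T) η
      (δ / (2 * M)) hη (by positivity)
    filter_upwards [eventually_ge_atTop H1] with H hH
    have h2 := h1 H hH
    rw [← Fam_eq] at h2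
    exact h2
  have hex' : ∀ᶠ H : ℕ in atTop, ∀ d ∈ L, ∀ T ∈ (univ : Finset (Finset (Fin m))),
      (((Fam H).filter (fun c => ¬ Pool.Agent.Q17.LS.Ok η (H : ℝ) (Pool.Agent.W307.RT.Sh
        ((∏ i ∈ T, (d i : ℤ)) ^ 2 * c.1) ((∏ i ∈ T, (d i : ℤ)) ^ 3 * c.2)))).card : ℝ) ≤
        δ / (2 * M) * ((Fam H).card : ℝ) := by
    rw [Filter.eventually_all_finset]
    intro d hd
    rw [Filter.eventually_all_finset]
    intro T _
    exact hex d hd T
  filter_upwards [eventually_ge_atTop H0, hex'] with H hH hbad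
  obtain ⟨d, hd, h1⟩ := h H hH
  refine ⟨d, hd, ?_⟩
  rw [← Fam_eq] at h1
  obtain ⟨B, hB⟩ : ∃ B : Finset (Fin m) → Finset (ℤ × ℤ), B = fun T => (Fam H).filter (fun c =>
      ¬ Pool.Agent.Q17.LS.Ok η (H : ℝ) (Pool.Agent.W307.RT.Sh
        ((∏ i ∈ T, (d i : ℤ)) ^ 2 * c.1) ((∏ i ∈ T, (d i : ℤ)) ^ 3 * c.2))) := ⟨_, rfl⟩
  have hBc : ∀ T, ((B T).card : ℝ) ≤ δ / (2 * M) * ((Fam H).card : ℝ) := by
    intro T
    rw [hB]
    exact hbad d hd T (mem_univ T)
  have h2 : (Fam H).filter (Pool.Agent.Q17.IG.Q4 (Pool.Agent.Y667.QK.TwS (fun j => (d j : ℤ)))) ⊆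
      (Fam H).filter (AllTwists η H d) ∪ univ.biUnion B := by
    intro c hc
    rw [mem_filter] at hc
    by_cases hok : ∀ T : Finset (Fin m), Pool.Agent.Q17.LS.Ok η (H : ℝ)
      (Pool.Agent.W307.RT.Sh ((∏ i ∈ T, (d i : ℤ)) ^ 2 * c.1) ((∏ i ∈ T, (d i : ℤ)) ^ 3 * c.2))
    · exact mem_union_left _ (mem_filter.2 ⟨hc.1, all_of (hL d hd) hc.2 hok⟩)
    · push Not at hok
      obtain ⟨T, hT⟩ := hok
      apply mem_union_right
      rw [mem_biUnion]
      refine ⟨T, mem_univ T, ?_⟩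
      rw [hB]
      exact mem_filter.2 ⟨hc.1, hT⟩
  have h3 : (((Fam H).filter (Pool.Agent.Q17.IG.Q4
      (Pool.Agent.Y667.QK.TwS (fun j => (d j : ℤ))))).card : ℝ) ≤
      (((Fam H).filter (AllTwists η H d)).card : ℝ) + ∑ T, ((B T).card : ℝ) := by
    have h4 := (card_le_card h2).trans ((card_union_le _ _).trans
      (Nat.add_le_add_left card_biUnion_le _))
    exact_mod_cast h4
  have h4 : ∑ T, ((B T).card : ℝ) ≤ δ / 2 * ((Fam H).card : ℝ) := by
    calc ∑ T, ((B T).card : ℝ) ≤ ∑ _T : Finset (Fin m), δ / (2 * M) * ((Fam H).card : ℝ) :=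
          sum_le_sum fun T _ => hBc T
      _ = M * (δ / (2 * M) * ((Fam H).card : ℝ)) := by
          rw [sum_const, card_univ, Fintype.card_finset, Fintype.card_fin, nsmul_eq_mul, hM]
          push_cast
          ring
      _ = δ / 2 * ((Fam H).card : ℝ) := by
          field_simp
  linarith

end Pool.Agent.Results.MP_4a9ea6_nt.TwistsWithLargeSha
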