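import Pool.Agent.Q6.XK.Lead

/-!
# The 2-part of the strong conjecture over `ℚ` for the twists of `X_0(49)` by primes `≡ 1 mod 4`

`E_D : y² + x y = x³ - (3 D + 1) / 4 x² - 2 D² x - D³` is the quadratic twist by `D` of
`X_0(49) : y² + x y = x³ - x² - 2 x - 1`, and `D` is ANY squarefree number all whose prime factors are
`≡ 1 mod 4`; any number of them may split in `ℚ(√-7)`. Let
`z = L(E_D, 1) #E_D(ℚ)_tors² / (Ω ∏ c_p)`, the order of `Ш(E_D/ℚ)` predicted by the conjecture if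
the rank is `0` (and `0` if it is not). With no hypothesis on the rank or on `Ш`:

* the equation is minimal at all primes, `L(E_D, s)` is entire, `#E_D(ℚ)_tors` is twice an odd number;
* `z` is an algebraic number which is integral at all the primes above two;
* `z` is a unit at one prime above two if and only if it is so at all of them, if and only if
  `E_D(ℚ)` is finite and `Ш(E_D/ℚ)` has no element of order two, if and only if there is no obstruction:
  a divisor `d > 1` of `D` whose prime factors split in `ℚ(√-7)`, which is a square modulo all the other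
  prime factors of `D` that split in `ℚ(√-7)`, and such that for the primes `p ∣ d` the number `D / d` is
  a square modulo `p` if and only if `-7` is a fourth power modulo `p`;
* in this case `L(E_D, 1) ≠ 0` (so that the order of vanishing is the rank, `0`), the 2-primary part of
  `Ш(E_D/ℚ)` is zero, `∏ c_p = 2 ^ (1 + s + 2 t)`, with `t` prime factors of `D` that split and `s` that do
  not, and the formula (iii) holds up to a factor which is a unit at all the primes above two.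
* In the family of the `D ≡ 1 mod 8` whose prime factors are `≡ 1 mod 8` and split in `ℚ(√-7)` or
  `≡ 5 mod 8` and inert in `ℚ(√-7)`, all this happens for exactly the proportion
  `∏_{i ≥ 0} (1 - 2^{-(2i+1)}) = 0.4194...`.

Analytic side, periods, Tamagawa numbers: the library `Pool.Agent.Y698` (where the twists were treated
over the subfields `K ≠ ℚ` of `ℚ(ζ_r)`), for `K = ℚ`, with an auxiliary prime `r`. Algebraic side: the
complete 2-descent over `ℚ` in `Pool.Agent.Q6.XK`. Proportion: `Pool.Agent.Y703.CQ.t_DEN`.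
-/

set_option autoImplicit false

open NumberField IsDedekindDomain WeierstrassCurve MeasureTheory

namespace Pool.Agent.Results.MP_4a9ea6_nt.TwoPartTwistsX049

/-- the group of the points of `W` over the field `L` -/
abbrev Pts (W : WeierstrassCurve ℚ) (L : Type) [Field L] [Algebra ℚ L] : Type :=
  Pool.Agent.TH841.SH.D.Pt W L

/-- the Tate-Shafarevich group over `ℚ`: continuous cocycles of the absolute Galois group that are
locally trivial at all `p` and over the real numbers, modulo coboundaries -/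
abbrev Sha (W : WeierstrassCurve ℚ) : Type := Pool.Agent.TH841.SH.D.Sha W

/-- For `D ≡ 1 mod 4` the quadratic twist by `D` of the elliptic curve
`X_0(49) : y² + x y = x³ - x² - 2 x - 1`:
the curve `y² + x y = x³ - (3 D + 1) / 4 x² - 2 D² x - D³`. -/
def twist (D : ℕ) : WeierstrassCurve ℤ := ⟨1, -((3 * D + 1) / 4), 0, -2 * D ^ 2, -D ^ 3⟩

/-- the curve `E_D` over `ℚ` -/
def E (D : ℕ) : WeierstrassCurve ℚ := (twist D).map (Int.castRingHom ℚ)

/-- The equation is minimal at the prime `v`: no change of variables over `ℚ` that keeps the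
coefficients integral at `v` decreases the order of the discriminant. -/
def MinimalAt (W : WeierstrassCurve ℚ) (v : HeightOneSpectrum (𝓞 ℚ)) : Prop :=
  ∀ C : VariableChange ℚ, v.valuation ℚ (C • W).a₁ ≤ 1 → v.valuation ℚ (C • W).a₂ ≤ 1 →
    v.valuation ℚ (C • W).a₃ ≤ 1 → v.valuation ℚ (C • W).a₄ ≤ 1 → v.valuation ℚ (C • W).a₆ ≤ 1 →
    v.valuation ℚ (C • W).Δ ≤ v.valuation ℚ W.Δ

/-- `W⁰(ℚ_v)`, the group of the points of `W` over the completion `ℚ_v` at the prime `v` with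
nonsingular reduction: the point at infinity and the points `(x, y)` where `x` is not integral, or one
of the partial derivatives of `y² + a₁ x y + a₃ y - x³ - a₂ x² - a₄ x - a₆` is a unit at `(x, y)`. -/
noncomputable def nonsing (W : WeierstrassCurve ℚ) (v : HeightOneSpectrum (𝓞 ℚ)) :
    AddSubgroup (Pts W (v.adicCompletion ℚ)) :=
  AddSubgroup.closure {P | ∀ x y h, P = Affine.Point.some x y h →
    1 < Valued.v x ∨
    Valued.v ((W.baseChange (v.adicCompletion ℚ)).a₁ * y -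
      (3 * x ^ 2 + 2 * (W.baseChange (v.adicCompletion ℚ)).a₂ * x +
        (W.baseChange (v.adicCompletion ℚ)).a₄)) = 1 ∨
    Valued.v (2 * y + (W.baseChange (v.adicCompletion ℚ)).a₁ * x +
      (W.baseChange (v.adicCompletion ℚ)).a₃) = 1}

/-- the product of the Tamagawa numbers `c_v = [W(ℚ_v) : W⁰(ℚ_v)]` of a minimal equation -/
noncomputable def Tam (W : WeierstrassCurve ℚ) : ℕ :=
  ∏ᶠ v : HeightOneSpectrum (𝓞 ℚ), (nonsing W v).index

/-- `4 x³ + b₂ x² + 2 b₄ x + b₆ = (2 y + a₁ x + a₃)²`. -/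
noncomputable def cubic (W : WeierstrassCurve ℤ) (x : ℝ) : ℝ :=
  4 * x ^ 3 + W.b₂ * x ^ 2 + 2 * W.b₄ * x + W.b₆

/-- `Ω = ∫_{W(ℝ)} |ω|` with `ω = dx / (2 y + a₁ x + a₃)`, as an integral over `x`: two real points lie
over each `x` with `cubic x > 0`. -/
noncomputable def Omega (W : WeierstrassCurve ℤ) : ℝ :=
  2 * ∫ x in {x : ℝ | 0 < cubic W x}, 1 / √(cubic W x)

open Classical in
/-- The order of the torsion subgroup of `W(F)`. -/
noncomputable def torsOrder {F : Type} [Field F] (W : WeierstrassCurve F) : ℕ :=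
  Nat.card (AddCommGroup.torsion W.toAffine.Point)

/-- The order of `Ш(E_D/ℚ)` predicted by the formula in the case of rank zero, for the value `l` of the
L-function at `s = 1`: `l #E_D(ℚ)_tors² / (Ω ∏ c_p)`. -/
noncomputable def anOrder (D : ℕ) (l : ℂ) : ℂ :=
  l * (torsOrder (E D) : ℂ) ^ 2 / ((Omega (twist D) : ℝ) * (Tam (E D) : ℂ))

/-- `D` is squarefree and all its prime factors are `1` modulo `4` -/
def Admissible (D : ℕ) : Prop := Squarefree D ∧ ∀ p : ℕ, p.Prime → p ∣ D → p % 4 = 1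

/-- the obstructions: `d > 1` divides `D`, its prime factors split in `ℚ(√-7)`, it is a square modulo
the other prime factors of `D` that split in `ℚ(√-7)`, and for the primes `p ∣ d` the number `D / d` is
a square modulo `p` if and only if `-7` is a fourth power modulo `p` -/
def Obstruction (D d : ℕ) : Prop := d ∣ D ∧ 1 < d ∧
  (∀ p : ℕ, p.Prime → p ∣ d → IsSquare (-7 : ZMod p)) ∧
  (∀ p : ℕ, p.Prime → p ∣ D → ¬ p ∣ d → IsSquare (-7 : ZMod p) → IsSquare (d : ZMod p)) ∧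
  ∀ p : ℕ, p.Prime → p ∣ d → (IsSquare ((D / d : ℕ) : ZMod p) ↔ ∃ y : ZMod p, y ^ 4 = -7)

/-- there is no obstruction -/
def Free (D : ℕ) : Prop := ∀ d, ¬ Obstruction D d

/-- the family: `D` is squarefree and `1` modulo `8`, its prime factors are `1` modulo `8` and split in
`ℚ(√-7)`, or `5` modulo `8` and inert in `ℚ(√-7)` -/
def Family (D : ℕ) : Prop := Squarefree D ∧ D % 8 = 1 ∧ ∀ p : ℕ, p.Prime → p ∣ D →
  (p % 8 = 1 ∧ (p % 7 = 1 ∨ p % 7 = 2 ∨ p % 7 = 4)) ∨
  (p % 8 = 5 ∧ (p % 7 = 3 ∨ p % 7 = 5 ∨ p % 7 = 6))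

open Classical in
/-- the number of the prime factors of `D` that split in `ℚ(√-7)` -/
noncomputable def splitNumber (D : ℕ) : ℕ :=
  (D.primeFactors.filter fun p : ℕ => IsSquare (-7 : ZMod p)).card

open Classical in
/-- the number of the prime factors of `D` that do not split in `ℚ(√-7)` -/
noncomputable def inertNumber (D : ℕ) : ℕ :=
  (D.primeFactors.filter fun p : ℕ => ¬ IsSquare (-7 : ZMod p)).card

section proof

open Pool.Agent.Y698

variable {D j : ℕ}

lemma E_eq (hj : D = 1 + 4 * j) : E D = AX ℚ j := twZ_map hj ℚ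

lemma cubic_eq (hj : D = 1 + 4 * j) (x : ℝ) : cubic (twist D) x = psD (1 + 4 * j) x := by
  have h1 : (3 * (D : ℤ) + 1) / 4 = 1 + 3 * j := by
    rw [hj]
    push_cast
    omega
  unfold cubic twist WeierstrassCurve.b₂ WeierstrassCurve.b₄ WeierstrassCurve.b₆ psD
  simp only
  rw [h1, hj]
  push_cast
  ring

lemma omega_eq (hj : D = 1 + 4 * j) : Omega (twist D) =
    ∫ x in {x : ℝ | 0 < psD (1 + 4 * j) x}, 2 / Real.sqrt (psD (1 + 4 * j) x) := by
  unfold Omega
  simp only [cubic_eq hj]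
  rw [← integral_const_mul]
  congr 1
  funext x
  ring

lemma places : InfinitePlace.nrRealPlaces ℚ = 1 ∧ InfinitePlace.nrComplexPlaces ℚ = 0 := by
  have h := InfinitePlace.card_add_two_mul_card_eq_rank ℚ
  rw [Module.finrank_self] at h
  omega

lemma an_eq (hj : D = 1 + 4 * j) (l : ℂ) : anOrder D l = SG.quoT ℚ j l := by
  have e1 : (torsOrder (E D) : ℂ) = (SG.tnum (AX ℚ j) : ℂ) := by
    unfold torsOrder SG.tnum
    rw [E_eq hj]
  have e2 : (Tam (E D) : ℂ) = ((∏ᶠ v : HeightOneSpectrum (𝓞 ℚ), tam (AX ℚ j) v : ℕ) : ℂ) := by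
    rw [E_eq hj]
    rfl
  unfold anOrder SG.quoT
  rw [e1, e2, omega_eq hj, places.1, places.2, pow_one, pow_zero, mul_one, Rat.numberField_discr,
    Int.cast_one, abs_one, Real.sqrt_one, Complex.ofReal_one, mul_one]

end proof

/-- `W(ℚ)` is finite and `Ш(W/ℚ)` has no element of order two -/
def RankZeroShaTwo (W : WeierstrassCurve ℚ) : Prop :=
  Finite W.toAffine.Point ∧ ∀ x : Sha W, x + x = 0 → x = 0

section proof

open Pool.Agent.Y698

variable {D j : ℕ}

lemma rz_iff (hj : D = 1 + 4 * j) : RankZeroShaTwo (E D) ↔ Q6.XK.Triv (D : ℤ) := by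
  have hD0 : (D : ℤ) ≠ 0 := by rw [hj]; omega
  have e : E D = AX ℚ j := E_eq hj
  rw [Q6.XK.triv_iff hD0, e]
  obtain ⟨h1, h2, -⟩ := Pool.Agent.Z932.Z702.t_TRN _ _ _ _ _ _ (SG.vr_AX ℚ j) (SG.AX_ne ℚ j)
  subst hj
  exact (and_congr h1 h2).symm

lemma four (hD : Admissible D) : ∃ j, ∏ q ∈ Q6.XK.QQ D ∪ Q6.XK.PP D, q = 1 + 4 * j ∧
    D = 1 + 4 * j := by
  have hB : Q6.XK.Base D := hD
  have h1 := Pool.Agent.Y698.prod_mod_four (S := Q6.XK.QQ D ∪ Q6.XK.PP D)
    fun q hq => (Q6.XK.gpU (Q6.XK.hQQ hB) (Q6.XK.hPP hB) q hq).m4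
  rw [Q6.XK.prod_QP hB] at h1 ⊢
  exact ⟨D / 4, by omega, by omega⟩

lemma pow_two_tors {A : Type} [AddCommGroup A] (h : ∀ x : A, x + x = 0 → x = 0) (n : ℕ) :
    ∀ x : A, 2 ^ n • x = 0 → x = 0 := by
  induction n with
  | zero => intro x hx; rwa [pow_zero, one_smul] at hx
  | succ n ih =>
    intro x hx
    apply ih
    apply h
    rw [← two_nsmul, smul_smul, ← pow_succ']
    exact hx

end proof

/-- what is proved for one `D` -/
theorem main {D : ℕ} (hD : Admissible D) :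
    (∀ v : HeightOneSpectrum (𝓞 ℚ), MinimalAt (E D) v) ∧
    (∃ t : ℕ, Odd t ∧ torsOrder (E D) = 2 * t) ∧
    Tam (E D) = 2 ^ (1 + inertNumber D + 2 * splitNumber D) ∧
    (RankZeroShaTwo (E D) ↔ Free D) ∧
    (Free D → ∀ (n : ℕ) (x : Sha (E D)), 2 ^ n • x = 0 → x = 0) ∧
    ∃ Λ : ℂ → ℂ, Differentiable ℂ Λ ∧
      (∀ s : ℂ, 2 < s.re → Λ s = (E D).LSeries s) ∧
      (∃ m : ℤ, Odd m ∧ _root_.IsIntegral ℤ ((m : ℂ) * anOrder D (Λ 1))) ∧
      (∀ (Γ : Type) [LinearOrderedCommGroupWithZero Γ] (v : Valuation ℂ Γ), v 2 < 1 →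
        v (anOrder D (Λ 1)) ≤ 1 ∧ (v (anOrder D (Λ 1)) = 1 ↔ Free D)) ∧
      (Free D → Λ 1 ≠ 0 ∧
        ∃ m : ℤ, Odd m ∧ _root_.IsIntegral ℤ ((m : ℂ) * (anOrder D (Λ 1))⁻¹)) := by
  have hB : Q6.XK.Base D := hD
  obtain ⟨j, hj, hDj⟩ := four hD
  obtain ⟨d1, d2, d3⟩ := Q6.XK.dataQ (Q6.XK.hQQ hB) (Q6.XK.hPP hB) hj
  obtain ⟨Λ, h1, h2, -, h3⟩ := Q6.XK.levelQ (Q6.XK.hQQ hB) (Q6.XK.hPP hB) hj
  have hcrit : (Pool.Agent.Y698.SG.mat (Q6.XK.QQ D) (Q6.XK.PP D)).det ≠ 0 ↔ Free D := Q6.XK.crit hB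
  have hrz : RankZeroShaTwo (E D) ↔ Free D := (rz_iff hDj).trans (Q6.XK.triv_crit hB)
  simp only [hcrit, ← an_eq hDj] at h3
  rw [← E_eq hDj] at h2 d1 d2 d3
  refine ⟨d1, d2, ?_, hrz, fun hF => fun n => pow_two_tors ((hrz.2 hF).2) n, Λ, h1, h2, ?_, h3, ?_⟩
  · have e : Tam (E D) = 2 ^ (1 + ((Q6.XK.QQ D).card + 2 * (Q6.XK.PP D).card)) := d3
    rw [e]
    congr 1
    unfold inertNumber splitNumber Q6.XK.QQ Q6.XK.PP
    ring
  · exact Pool.Agent.Y698.int_of_val fun Γ _ v hv => (h3 Γ v hv).1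
  · intro hF
    have hz : ∀ (Γ : Type) [LinearOrderedCommGroupWithZero Γ] (v : Valuation ℂ Γ), v 2 < 1 →
        v (anOrder D (Λ 1)) = 1 := fun Γ _ v hv => ((h3 Γ v hv).2).2 hF
    refine ⟨?_, Pool.Agent.Y698.int_of_val fun Γ _ v hv => by rw [map_inv₀, hz Γ v hv, inv_one]⟩
    intro h0
    refine Pool.Agent.Y698.SG.exists_val2 fun Γ _ v hv => ?_
    have h5 := hz Γ v hv
    rw [h0] at h5
    unfold anOrder at h5
    rw [zero_mul, zero_div, map_zero] at h5
    exact zero_ne_one h5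

open Classical in
theorem result :
    (∀ D : ℕ, Admissible D →
      (∀ v : HeightOneSpectrum (𝓞 ℚ), MinimalAt (E D) v) ∧
      (∃ t : ℕ, Odd t ∧ torsOrder (E D) = 2 * t) ∧
      Tam (E D) = 2 ^ (1 + inertNumber D + 2 * splitNumber D) ∧
      (RankZeroShaTwo (E D) ↔ Free D) ∧
      (Free D → ∀ (n : ℕ) (x : Sha (E D)), 2 ^ n • x = 0 → x = 0) ∧
      ∃ Λ : ℂ → ℂ, Differentiable ℂ Λ ∧
        (∀ s : ℂ, 2 < s.re → Λ s = (E D).LSeries s) ∧
        (∃ m : ℤ, Odd m ∧ _root_.IsIntegral ℤ ((m : ℂ) * anOrder D (Λ 1))) ∧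
        (∀ (Γ : Type) [LinearOrderedCommGroupWithZero Γ] (v : Valuation ℂ Γ), v 2 < 1 →
          v (anOrder D (Λ 1)) ≤ 1 ∧ (v (anOrder D (Λ 1)) = 1 ↔ Free D)) ∧
        (Free D → Λ 1 ≠ 0 ∧
          ∃ m : ℤ, Odd m ∧ _root_.IsIntegral ℤ ((m : ℂ) * (anOrder D (Λ 1))⁻¹))) ∧
    (∀ D : ℕ, Family D → Admissible D) ∧
    Filter.Tendsto (fun X : ℕ =>
        (((Finset.Icc 1 X).filter fun D => Family D ∧ Free D).card : ℝ) /
        (((Finset.Icc 1 X).filter fun D => Family D).card : ℝ)) Filter.atTop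
      (nhds (∏' i : ℕ, (1 - (1 / 2 : ℝ) ^ (2 * i + 1)))) := by
  refine ⟨fun D hD => main hD, fun D hD => Q6.XK.fam_base hD, ?_⟩
  refine Q6.XK.prop_triv.congr fun X => congrArg₂ (fun a b : ℕ => (a : ℝ) / (b : ℝ)) ?_ ?_
  · refine congrArg Finset.card (Finset.ext fun D => ?_)
    refine (Finset.mem_filter).trans (Iff.trans ?_ (Finset.mem_filter).symm)
    exact and_congr_right fun _ => and_congr_right fun hD => (Q6.XK.triv_crit (Q6.XK.fam_base hD))
  · refine congrArg Finset.card (Finset.ext fun D => ?_)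
    refine (Finset.mem_filter).trans (Iff.trans ?_ (Finset.mem_filter).symm)
    exact Iff.rfl

end Pool.Agent.Results.MP_4a9ea6_nt.TwoPartTwistsX049
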